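import Pool.Agent.R970.Tri.Final

set_option autoImplicit false

/-!
# Tricolor percolation at the symmetric point is in the extended phase

Three-colour percolation on the tessellation of space by truncated octahedra, all cells being
coloured independently and uniformly with three colours.  We prove that the probability of a
tricolor crossing of the annulus `A_n` is at least `1 / (2 * 21 ^ 3 * 43 ^ 3)` for every `n ≥ 1`:
the point `(1/3, 1/3, 1/3)` belongs to the extended phase.

Idea of the proof.  If a crossing probability were tiny at one scale, it would decay faster than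
any power along a sequence of scales.  Then in a slab all tricolor paths are short, and the
colours on the bottom plane lift, after a local correction, to an integer height function
congruent to the colour modulo three.  Its average modulo three is a function of the colours with
small influences, hence nearly constant by the Efron-Stein inequality; but rotating
the three colours shifts it by one third of the circle, a contradiction.
-/

namespace Pool.Agent.Results.MP_3fb350_pr.SymmetricExtended

open MeasureTheory Relation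

/-- A cell of the tessellation, represented by its centre: a point of
`2ℤ³ ∪ (2ℤ³ + (1,1,1))`. -/
def Cell (v : Fin 3 → ℤ) : Prop := (∀ i, Even (v i)) ∨ (∀ i, Odd (v i))

/-- Two cells are adjacent when their difference is `±2` times a coordinate vector or has all its
coordinates equal to `±1`. -/
def Adj (v w : Fin 3 → ℤ) : Prop :=
  Cell v ∧ Cell w ∧
    ((∃ i, |v i - w i| = 2 ∧ ∀ j, j ≠ i → v j = w j) ∨ (∀ i, |v i - w i| = 1))

/-- A set of mutually adjacent cells. -/
def Clique (Q : Finset (Fin 3 → ℤ)) : Prop := ∀ v ∈ Q, ∀ w ∈ Q, v ≠ w → Adj v w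

/-- A vertex of the tessellation: a quadruple of mutually adjacent cells. -/
def IsVertex (Q : Finset (Fin 3 → ℤ)) : Prop := Q.card = 4 ∧ Clique Q

/-- A tricolor edge of the colouring `ω`: a triple of mutually adjacent cells carrying all the
three colours. -/
def TricolorEdge (ω : (Fin 3 → ℤ) → Fin 3) (T : Finset (Fin 3 → ℤ)) : Prop :=
  T.card = 3 ∧ Clique T ∧ ∀ c : Fin 3, ∃ v ∈ T, ω v = c

/-- `y 0, ..., y m` is a tricolor path: distinct vertices of the tessellation, consecutive ones
being the two ends of a tricolor edge. -/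
def TricolorPath (ω : (Fin 3 → ℤ) → Fin 3) (m : ℕ) (y : ℕ → Finset (Fin 3 → ℤ)) : Prop :=
  (∀ k, k ≤ m → IsVertex (y k)) ∧ (∀ j k, j ≤ m → k ≤ m → y j = y k → j = k) ∧
    ∀ k, k < m → TricolorEdge ω (y k ∩ y (k + 1))

/-- The cells of the annulus `A_n = [-3n,3n]³ ∖ [-n,n]³`. -/
def InA (n : ℕ) (v : Fin 3 → ℤ) : Prop :=
  Cell v ∧ (∃ i, (n : ℤ) < |v i|) ∧ ∀ i, |v i| ≤ 3 * (n : ℤ)

/-- The event `E_n`: some tricolor path `y 0, ..., y m` joins a vertex on the inner boundary of
`A_n` (incident to a cell of `[-n,n]³` and to a cell of `A_n`) to a vertex on the outer boundary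
of `A_n` (incident to a cell of `A_n` and to a cell outside `[-3n,3n]³`), all its other vertices
being incident to cells of `A_n` only. -/
def E (n : ℕ) (ω : (Fin 3 → ℤ) → Fin 3) : Prop :=
  ∃ (m : ℕ) (y : ℕ → Finset (Fin 3 → ℤ)), TricolorPath ω m y ∧
    ((∃ v ∈ y 0, ∀ i, |v i| ≤ (n : ℤ)) ∧ (∃ v ∈ y 0, InA n v)) ∧
    ((∃ v ∈ y m, InA n v) ∧ (∃ v ∈ y m, ∃ i, 3 * (n : ℤ) < |v i|)) ∧
    ∀ k, 0 < k → k < m → ∀ v ∈ y k, InA n v

/-- The law of the colouring for the colour probabilities `p`: all cells are independent with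
law `p` (points which are not cells are coloured as well but never used). -/
noncomputable def Pr (p : PMF (Fin 3)) : Measure ((Fin 3 → ℤ) → Fin 3) :=
  Measure.infinitePi (fun _ : Fin 3 → ℤ => p.toMeasure)

open Pool.Agent.R970.Tri in
lemma adj_iff {v w : Fin 3 → ℤ} (h : adj v w) : Adj v w := by
  obtain ⟨h1, h2, h3⟩ := h
  refine ⟨h1, h2, ?_⟩
  rcases h3 with ⟨i, hi, hj⟩ | h3
  · left
    refine ⟨i, ?_, hj⟩
    rcases hi with hi | hi
    · rw [hi]; rfl
    · rw [abs_sub_comm, hi]; rfl
  · right
    intro i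
    rcases h3 i with hi | hi
    · rw [hi]; rfl
    · rw [abs_sub_comm, hi]; rfl

/-- from the reflexive transitive closure to sequences -/
lemma exists_seq {α : Type*} {r : α → α → Prop} {a b : α} (h : ReflTransGen r a b) :
    ∃ (m : ℕ) (y : ℕ → α), y 0 = a ∧ y m = b ∧ ∀ k, k < m → r (y k) (y (k + 1)) := by
  induction h with
  | refl => exact ⟨0, fun _ => a, rfl, rfl, fun k hk => absurd hk (by omega)⟩
  | @tail b c _ hbc ih =>
    obtain ⟨m, y, h0, hm, hs⟩ := ih
    refine ⟨m + 1, fun k => if k ≤ m then y k else c, ?_, ?_, ?_⟩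
    · simp [h0]
    · simp
    · intro k hk
      by_cases hkm : k < m
      · simp only [show k ≤ m by omega, if_true, show k + 1 ≤ m by omega]
        exact hs k hkm
      · have : k = m := by omega
        subst this
        simp only [le_refl, if_true, show ¬ (k + 1 ≤ k) by omega, if_false, hm]
        exact hbc

open Pool.Agent.R970.Tri in
/-- raw crossing of length `m` -/
def Raw (n : ℕ) (ω : (Fin 3 → ℤ) → Fin 3) (m : ℕ) : Prop :=
  ∃ y : ℕ → Finset (Fin 3 → ℤ), Tet (y 0) ∧ (∀ k, k < m → step ω (y k) (y (k + 1))) ∧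
    (∃ v ∈ y 0, ∀ i, |v i| ≤ (n : ℤ)) ∧ (∃ v ∈ y m, ∃ i, 3 * (n : ℤ) < |v i|)

open Pool.Agent.R970.Tri in
lemma E_of_Xev {n : ℕ} (hn : 1 ≤ n) {ω : (Fin 3 → ℤ) → Fin 3} (h : Xev 0 n ω) : E n ω := by
  classical
  have hraw : ∃ m, Raw n ω m := by
    obtain ⟨Q, Q', h1, h2, ⟨v, hv, hvn⟩, ⟨w, hw, i, hi⟩⟩ := h
    obtain ⟨m, y, h0, hm, hs⟩ := exists_seq h2
    refine ⟨m, y, by rw [h0]; exact h1, hs, ⟨v, by rw [h0]; exact hv, fun i => ?_⟩,
      ⟨w, by rw [hm]; exact hw, i, ?_⟩⟩
    · simpa using hvn i
    · simpa using hi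
  obtain ⟨y, ht, hs, hin, hout⟩ := Nat.find_spec hraw
  set m := Nat.find hraw with hm
  have hmin : ∀ m', m' < m → ¬ Raw n ω m' := fun m' h' => Nat.find_min hraw h'
  have htet : ∀ k, k ≤ m → Tet (y k) := by
    intro k hk
    rcases Nat.eq_zero_or_pos k with h0 | h0
    · rw [h0]; exact ht
    · obtain ⟨j, rfl⟩ : ∃ j, k = j + 1 := ⟨k - 1, by omega⟩
      exact (hs j (by omega)).tet'
  -- no inner cell after the start
  have hni : ∀ k, 0 < k → k ≤ m → ∀ v ∈ y k, ∃ i, (n : ℤ) < |v i| := by
    intro k hk hkm v hv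
    by_contra hcon
    push Not at hcon
    refine hmin (m - k) (by omega) ⟨fun j => y (k + j), htet k hkm, ?_, ⟨v, hv, hcon⟩, ?_⟩
    · intro j hj
      exact hs (k + j) (by omega)
    · have : k + (m - k) = m := by omega
      simp only [this]
      exact hout
  -- no outer cell before the end
  have hno : ∀ k, k < m → ∀ v ∈ y k, ∀ i, |v i| ≤ 3 * (n : ℤ) := by
    intro k hk v hv i
    by_contra hcon
    push Not at hcon
    exact hmin k hk ⟨y, ht, fun j hj => hs j (by omega), hin, ⟨v, hv, i, hcon⟩⟩
  have hcell : ∀ k, k ≤ m → ∀ v ∈ y k, Cell v := by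
    intro k hk v hv
    have h4 := (htet k hk).1
    obtain ⟨w, hw, hwv⟩ : ∃ w ∈ y k, w ≠ v := by
      apply Finset.exists_mem_ne
      omega
    exact ((htet k hk).2 v hv w hw (fun h => hwv h.symm)).1
  -- at least one step
  have hm1 : 1 ≤ m := by
    by_contra hcon
    have hm0 : m = 0 := by omega
    obtain ⟨v, hv, hvn⟩ := hin
    obtain ⟨w, hw, i, hi⟩ := hout
    rw [hm0] at hw
    have h1 := mem_bal.1 (tet_bal (a := 0) (s := n) ht hv (fun i => by simpa using hvn i) hw) i
    simp only [Pi.zero_apply, sub_zero] at h1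
    omega
  have hInA : ∀ k, k < m → ∀ v, v ∈ y k → v ∈ y (k + 1) → InA n v := by
    intro k hk v hv hv'
    exact ⟨hcell k (by omega) v hv, hni (k + 1) (by omega) (by omega) v hv', hno k hk v hv⟩
  have hshare : ∀ k, k < m → ∃ v, v ∈ y k ∧ v ∈ y (k + 1) := by
    intro k hk
    have h3 := (hs k hk).2.2.2.2.2.1
    obtain ⟨v, hv⟩ := Finset.card_pos.1 (show 0 < (y k ∩ y (k + 1)).card by omega)
    exact ⟨v, (Finset.mem_inter.1 hv).1, (Finset.mem_inter.1 hv).2⟩
  refine ⟨m, y, ⟨?_, ?_, ?_⟩, ⟨hin, ?_⟩, ⟨?_, hout⟩, ?_⟩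
  · intro k hk
    exact ⟨(htet k hk).1, fun v hv w hw hvw => adj_iff ((htet k hk).2 v hv w hw hvw)⟩
  · -- injectivity
    have hlt : ∀ j k, j < k → k ≤ m → y j ≠ y k := by
      intro j k hjk hkm he
      refine hmin (m - (k - j)) (by omega)
        ⟨fun l => if l ≤ j then y l else y (l + (k - j)), ?_, ?_, ?_, ?_⟩
      · simp only [Nat.zero_le, if_true]; exact ht
      · intro l hl
        by_cases h1 : l + 1 ≤ j
        · simp only [show l ≤ j by omega, if_true, h1]
          exact hs l (by omega)
        · by_cases h2 : l = j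
          · subst h2
            simp only [le_refl, if_true, show ¬ (l + 1 ≤ l) by omega, if_false]
            rw [he]
            have e : l + 1 + (k - l) = k + 1 := by omega
            rw [e]
            exact hs k (by omega)
          · simp only [show ¬ (l ≤ j) by omega, if_false, show ¬ (l + 1 ≤ j) by omega]
            have e : l + 1 + (k - j) = l + (k - j) + 1 := by omega
            rw [e]
            exact hs _ (by omega)
      · simp only [Nat.zero_le, if_true]; exact hin
      · by_cases h1 : m - (k - j) ≤ j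
        · have h2 : k = m := by omega
          have h3 : m - (k - j) = j := by omega
          simp only [h3, le_refl, if_true]
          rw [he, h2]
          exact hout
        · simp only [h1, if_false]
          have e : m - (k - j) + (k - j) = m := by omega
          rw [e]
          exact hout
    intro j k hj hk he
    rcases lt_trichotomy j k with h1 | h1 | h1
    · exact absurd he (hlt j k h1 hk)
    · exact h1
    · exact absurd he.symm (hlt k j h1 hj)
  · intro k hk
    have h1 := hs k hk
    exact ⟨h1.2.2.2.2.2.1, fun v hv w hw hvw => adj_iff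
      ((htet k (by omega)).2 v (Finset.mem_inter.1 hv).1 w (Finset.mem_inter.1 hw).1 hvw),
      h1.2.2.2.2.2.2⟩
  · obtain ⟨v, hv, hv'⟩ := hshare 0 (by omega)
    exact ⟨v, hv, hInA 0 (by omega) v hv hv'⟩
  · obtain ⟨v, hv, hv'⟩ := hshare (m - 1) (by omega)
    have e : m - 1 + 1 = m := by omega
    have := hInA (m - 1) (by omega) v hv hv'
    rw [e] at hv'
    exact ⟨v, hv', this⟩
  · intro k hk hkm v hv
    exact ⟨hcell k hkm.le v hv, hni k hk hkm.le v hv, hno k hkm v hv⟩

open Pool.Agent.R970.Tri in
/-- **The symmetric point belongs to the extended phase.**  If every cell is coloured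
independently and uniformly with three colours, then `Pr (E_n) ≥ 1 / (2 * 21 ^ 3 * 43 ^ 3)` for
every `n ≥ 1`. -/
theorem result (p : PMF (Fin 3)) (hp : ∀ c : Fin 3, p c = 3⁻¹) (n : ℕ) (hn : 1 ≤ n) :
    1 / (2 * 21 ^ 3 * 43 ^ 3) ≤ (Pr p).real {ω | E n ω} := by
  have hpu : p = PMF.uniformOfFintype (Fin 3) := by
    ext c
    rw [hp c]
    simp
  have hP : Pr p = mu := by
    rw [hpu]
    rfl
  have hprob : IsProbabilityMeasure (Pr p) := by rw [hP]; infer_instance
  have h1 := q_lower hn
  have h2 : (q n).toReal ≤ (Pr p).real {ω | E n ω} := by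
    rw [measureReal_def]
    apply ENNReal.toReal_mono (measure_ne_top _ _)
    rw [hP]
    exact measure_mono fun ω hω => E_of_Xev hn hω
  refine le_trans (le_of_eq ?_) (h1.le.trans h2)
  unfold C0
  norm_num

end Pool.Agent.Results.MP_3fb350_pr.SymmetricExtended
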